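import Pool.Agent.Lib.MP_b5021c_nt.IfaceB
import Pool.Agent.Lib.MP_b5021c_nt.IfaceD

/-! Row B2C: coefficients of a stable element are bounded by the constant coefficient. -/

namespace Pool.Agent.B5.H50

open Polynomial

noncomputable section

variable {O : Type} [CommRing O] [Coef O] {L : Type} [AddCommGroup L]

theorem gpart_coeff {K : Type} [Semiring K] (lam : L →+ ℤ) (c : ℤ) (G : AddMonoidAlgebra K L) (a : L) :
    (gpart lam c G).coeff a = if lam a = c then G.coeff a else 0 := by
  unfold gpart
  rw [AddMonoidAlgebra.coeff_ofCoeff]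
  exact Finsupp.filter_apply _ _ _

theorem ev_single (z : Circle) (u : AddChar L Circle) (a : L) (c : RO O) :
    ev z u (AddMonoidAlgebra.single a c : AO O L) = evR z c * (u a : ℂ) := by
  unfold ev spec
  rw [RingHom.comp_apply, AddMonoidAlgebra.mapRingHom_single, evC_apply]
  simp

theorem norm_ev_single (z : Circle) (u : AddChar L Circle) (a : L) (c : RO O) :
    ‖ev z u (AddMonoidAlgebra.single a c : AO O L)‖ = ‖evR z c‖ := by
  rw [ev_single, norm_mul, Circle.norm_coe, mul_one]

omit [Coef O] in
/-- if `lam` separates `a` from the rest of the support then the graded part is a monomial -/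
theorem gpart_single (lam : L →+ ℤ) (G : AO O L) (a : L)
    (h : ∀ b ∈ G.coeff.support, lam b = lam a → b = a) :
    gpart lam (lam a) G = AddMonoidAlgebra.single a (G.coeff a) := by
  apply AddMonoidAlgebra.ext
  apply Finsupp.ext
  intro b
  rw [gpart_coeff, AddMonoidAlgebra.coeff_single]
  by_cases hab : b = a
  · subst hab
    rw [if_pos rfl, Finsupp.single_eq_same]
  · rw [Finsupp.single_eq_of_ne hab]
    split_ifs with h1
    · by_contra h2
      exact hab (h b (Finsupp.mem_support_iff.mpr h2) h1)
    · rfl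

theorem b2c (hB2 : B2S) (hM : MultiS) (hG : GenS) : B2cS := by
  intro O _ _ _ _ L _ _ _ G hS
  classical
  obtain ⟨h0, lam0, hpos, hst⟩ := id hS
  have first : ∀ a : L, ∃ C : ℝ, ∀ z : Circle, ‖evR z (G.coeff a)‖ ≤ C * ‖evR z (G.coeff 0)‖ := by
    intro a
    by_cases ha : G.coeff a = 0
    · exact ⟨0, fun z => by rw [ha, map_zero, norm_zero, zero_mul]⟩
    obtain ⟨mu, -, hmu1, hmu2⟩ := hG L (G.coeff.support.erase 0) G.coeff.support ⊥ lam0
      (by intro k hk; rw [(Submodule.mem_bot ℤ).mp hk, map_zero])
      (by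
        intro n b hn hb
        rw [Submodule.mem_bot] at hb ⊢
        exact (smul_eq_zero.mp hb).resolve_left hn)
      (fun b hb => hpos b (Finset.mem_of_mem_erase hb) (Finset.ne_of_mem_erase hb))
      (by
        intro b _ c _ hbc
        rw [Submodule.mem_bot] at hbc
        exact sub_eq_zero.mp hbc)
    have hposmu : Pos mu G := fun b hb hb0 => hmu1 b (Finset.mem_erase.mpr ⟨hb0, hb⟩)
    have hnn : Nn mu G := by
      intro b hb
      by_cases hb0 : b = 0
      · rw [hb0, map_zero]
      · exact (hposmu b hb hb0).le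
    obtain ⟨C, -, hC⟩ := hB2 O L G mu hS hnn
    refine ⟨C, fun z => ?_⟩
    have h1 := hC (mu a) z 1
    rw [gpart_single mu G a (fun b hb hba => hmu2 b hb a (Finsupp.mem_support_iff.mpr ha) hba),
      norm_ev_single] at h1
    have h2 : gpart mu 0 G = AddMonoidAlgebra.single 0 (G.coeff 0) := by
      have := gpart_single mu G 0 (fun b hb hb0 =>
        hmu2 b hb 0 (Finsupp.mem_support_iff.mpr h0) hb0)
      rwa [map_zero] at this
    rw [h2, norm_ev_single] at h1
    exact h1
  refine ⟨first, ?_⟩
  intro b hb z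
  obtain ⟨hbs, hb0, lam, hlb, hlam⟩ := hb
  by_cases hz : evR z (G.coeff 0) = 0
  · obtain ⟨C, hC⟩ := first b
    have := hC z
    rw [hz, norm_zero, mul_zero] at this
    rw [hz, norm_zero]
    exact this
  by_contra hlt
  rw [not_le] at hlt
  have hGb : evR z (G.coeff b) ≠ 0 := by
    intro h1
    rw [h1, norm_zero] at hlt
    exact absurd hlt (not_lt.mpr (norm_nonneg _))
  have hsub : ∀ a ∈ (spec z G).coeff.support, a ∈ G.coeff.support := by
    intro a ha
    rw [Finsupp.mem_support_iff, spec_coeff] at ha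
    rw [Finsupp.mem_support_iff]
    intro h1
    rw [h1, map_zero] at ha
    exact ha rfl
  have hSC : StableC (spec z G) :=
    ⟨by rw [spec_coeff]; exact hz, lam0, fun a ha => hpos a (hsub a ha), hst z hz⟩
  have hn : 0 < lam0 b := hpos b (Finsupp.mem_support_iff.mpr hbs) hb0
  have hn' : (lam0 b).toNat ≠ 0 := by omega
  obtain ⟨s, hs⟩ := IsAlgClosed.exists_pow_nat_eq (-(evR z (G.coeff 0)) / evR z (G.coeff b))
    (Nat.pos_of_ne_zero hn')
  have hs1 : ‖s‖ < 1 := by
    have h1 : ‖s‖ ^ (lam0 b).toNat < 1 := by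
      rw [← norm_pow, hs, norm_div, norm_neg, div_lt_one (norm_pos_iff.mpr hGb)]
      exact hlt
    exact (pow_lt_one_iff_of_nonneg (norm_nonneg _) hn').mp h1
  have h1 := hM L (spec z G) hSC Bool (fun i => if i then lam0 else lam) (by
    intro i a ha
    cases i
    · by_cases ha0 : a = 0
      · rw [ha0, map_zero]
      · by_cases hab : a = b
        · rw [hab]; exact hlb.ge
        · exact (hlam a (Finsupp.mem_support_iff.mp (hsub a ha)) ha0 hab).le
    · by_cases ha0 : a = 0
      · rw [ha0, map_zero]
      · exact (hpos a (hsub a ha) ha0).le) (by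
    intro a ha ha0
    rw [Fintype.sum_bool]
    have h2 : 0 < lam0 a := hpos a (hsub a ha) ha0
    have h3 : 0 ≤ lam a := by
      by_cases hab : a = b
      · rw [hab]; exact hlb.ge
      · exact (hlam a (Finsupp.mem_support_iff.mp (hsub a ha)) ha0 hab).le
    simp only [if_true]
    change 0 < lam0 a + lam a
    omega) 1 (fun i => if i then s else 0) (by
    intro i
    cases i
    · simp
    · exact hs1)
  apply h1
  unfold mev
  have hterm : ∀ (a : L) (c : ℂ), c * ((1 : AddChar L Circle) a : ℂ)
      * ∏ i : Bool, (if i then s else 0) ^ ((if i then lam0 else lam) a).toNat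
      = c * (s ^ (lam0 a).toNat * 0 ^ (lam a).toNat) := by
    intro a c
    rw [Fintype.prod_bool]
    simp
  have hsum : (spec z G).coeff.sum (fun a c => c * ((1 : AddChar L Circle) a : ℂ)
      * ∏ i : Bool, (if i then s else 0) ^ ((if i then lam0 else lam) a).toNat)
      = ∑ a ∈ ({0, b} : Finset L), (spec z G).coeff a * (s ^ (lam0 a).toNat * 0 ^ (lam a).toNat) := by
    rw [Finsupp.sum]
    simp_rw [hterm]
    refine (Finset.sum_subset_zero_on_sdiff ?_ ?_ (fun _ _ => rfl)).symm
    · intro a ha
      rw [Finset.mem_insert, Finset.mem_singleton] at ha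
      rw [Finsupp.mem_support_iff, spec_coeff]
      rcases ha with rfl | rfl
      · exact hz
      · exact hGb
    · intro a ha
      rw [Finset.mem_sdiff, Finset.mem_insert, Finset.mem_singleton, not_or] at ha
      have h2 : 0 < lam a := hlam a (Finsupp.mem_support_iff.mp (hsub a ha.1)) ha.2.1 ha.2.2
      rw [zero_pow (by omega), mul_zero, mul_zero]
  have e1 : lam0 (0 : L) = 0 := map_zero lam0
  have e2 : lam (0 : L) = 0 := map_zero lam
  rw [hsum, Finset.sum_pair hb0.symm, spec_coeff, spec_coeff, e1, e2, hlb, hs]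
  simp only [Int.toNat_zero, pow_zero, mul_one]
  rw [mul_div_cancel₀ _ hGb, add_neg_cancel]

end

end Pool.Agent.B5.H50
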