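import Pool.Agent.Lib.MP_b5021c_nt.IfaceL1

/-! Row SPK of PaperL.md: Schwarz-Pick for multi-affine polynomials (uses the statement A4S). -/

namespace Pool.Agent.B5.H50

open Polynomial Finset

noncomputable section

/-- the part without the port `0`, at `y_i = c_i t` -/
def xp {r : ℕ} (p : Finset (Fin (r + 1)) → ℂ) (c : Fin (r + 1) → ℂ) : ℂ[X] :=
  ∑ I : Finset (Fin (r + 1)), if (0 : Fin (r + 1)) ∈ I then 0 else C (p I * ∏ i ∈ I, c i) * X ^ I.card

/-- the part with the port `0` -/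
def yp {r : ℕ} (p : Finset (Fin (r + 1)) → ℂ) (c : Fin (r + 1) → ℂ) : ℂ[X] :=
  ∑ I : Finset (Fin (r + 1)), if (0 : Fin (r + 1)) ∈ I then
    C (p I * ∏ i ∈ I.erase 0, c i) * X ^ (I.erase 0).card else 0

theorem eval_xy {r : ℕ} (p : Finset (Fin (r + 1)) → ℂ) (c : Fin (r + 1) → ℂ) (y0 t : ℂ) :
    (xp p c).eval t + y0 * (yp p c).eval t
      = ∑ I : Finset (Fin (r + 1)), p I * ∏ i ∈ I, (if i = 0 then y0 else c i * t) := by
  unfold xp yp
  rw [eval_finsetSum, eval_finsetSum, mul_sum, ← sum_add_distrib]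
  refine sum_congr rfl fun I _ => ?_
  by_cases h : (0 : Fin (r + 1)) ∈ I
  · rw [if_pos h, if_pos h, eval_zero, zero_add, ← mul_prod_erase I _ h, if_pos rfl]
    have h1 : ∏ i ∈ I.erase 0, (if i = 0 then y0 else c i * t)
        = (∏ i ∈ I.erase 0, c i) * t ^ (I.erase 0).card := by
      rw [← prod_const, ← prod_mul_distrib]
      refine prod_congr rfl fun i hi => ?_
      rw [if_neg (ne_of_mem_erase hi)]
    rw [h1]
    simp only [eval_mul, eval_C, eval_pow, eval_X]
    ring
  · rw [if_neg h, if_neg h, eval_zero, mul_zero, add_zero]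
    have h1 : ∏ i ∈ I, (if i = 0 then y0 else c i * t) = (∏ i ∈ I, c i) * t ^ I.card := by
      rw [← prod_const, ← prod_mul_distrib]
      refine prod_congr rfl fun i hi => ?_
      have h0 : i ≠ 0 := fun h0 => h (by rw [← h0]; exact hi)
      rw [if_neg h0]
    rw [h1]
    simp only [eval_mul, eval_C, eval_pow, eval_X]
    ring

theorem xp0 {r : ℕ} (p : Finset (Fin (r + 1)) → ℂ) (c : Fin (r + 1) → ℂ) :
    (xp p c).coeff 0 = p ∅ := by
  unfold xp
  rw [finsetSum_coeff, sum_eq_single ∅]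
  · simp
  · intro I _ hI
    by_cases h : (0 : Fin (r + 1)) ∈ I
    · rw [if_pos h]; simp
    · rw [if_neg h, coeff_C_mul_X_pow, if_neg]
      exact fun h0 => hI (card_eq_zero.mp h0.symm)
  · simp

theorem yp0 {r : ℕ} (p : Finset (Fin (r + 1)) → ℂ) (c : Fin (r + 1) → ℂ) :
    (yp p c).coeff 0 = p {0} := by
  unfold yp
  rw [finsetSum_coeff, sum_eq_single {0}]
  · simp
  · intro I _ hI
    by_cases h : (0 : Fin (r + 1)) ∈ I
    · rw [if_pos h, coeff_C_mul_X_pow, if_neg]
      intro h0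
      apply hI
      have h1 := card_eq_zero.mp h0.symm
      rw [← insert_erase h, h1]
      rfl
    · rw [if_neg h]; simp
  · simp

theorem xp1 {r : ℕ} (p : Finset (Fin (r + 1)) → ℂ) (c : Fin (r + 1) → ℂ) :
    (xp p c).coeff 1 = ∑ i : Fin r, c i.succ * p {i.succ} := by
  unfold xp
  rw [finsetSum_coeff]
  have hinj : Function.Injective (fun i : Fin r => ({i.succ} : Finset (Fin (r + 1)))) :=
    fun i j h => Fin.succ_injective r (singleton_injective h)
  rw [← sum_subset (subset_univ (univ.image fun i : Fin r => ({i.succ} : Finset (Fin (r + 1)))))]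
  · rw [sum_image fun i _ j _ h => hinj h]
    refine sum_congr rfl fun i _ => ?_
    have h : (0 : Fin (r + 1)) ∉ ({i.succ} : Finset (Fin (r + 1))) := by
      rw [mem_singleton]; exact (Fin.succ_ne_zero i).symm
    rw [if_neg h, coeff_C_mul_X_pow, if_pos (card_singleton _).symm, prod_singleton, mul_comm]
  · intro I _ hI
    by_cases h : (0 : Fin (r + 1)) ∈ I
    · rw [if_pos h]; simp
    · rw [if_neg h, coeff_C_mul_X_pow, if_neg]
      intro h0
      obtain ⟨a, ha⟩ := card_eq_one.mp h0.symm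
      apply hI
      rw [ha] at h
      have ha0 : a ≠ 0 := fun h1 => h (mem_singleton.mpr h1.symm)
      obtain ⟨b, hb⟩ := Fin.exists_succ_eq_of_ne_zero ha0
      exact mem_image.mpr ⟨b, mem_univ _, by rw [ha, hb]⟩

theorem yp1 {r : ℕ} (p : Finset (Fin (r + 1)) → ℂ) (c : Fin (r + 1) → ℂ) :
    (yp p c).coeff 1 = ∑ i : Fin r, c i.succ * p {0, i.succ} := by
  unfold yp
  rw [finsetSum_coeff]
  have he : ∀ i : Fin r, ({0, i.succ} : Finset (Fin (r + 1))).erase 0 = {i.succ} := by
    intro i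
    rw [erase_insert]
    rw [mem_singleton]; exact (Fin.succ_ne_zero i).symm
  have hinj : Function.Injective (fun i : Fin r => ({0, i.succ} : Finset (Fin (r + 1)))) := by
    intro i j h
    have h1 := congrArg (fun I => I.erase (0 : Fin (r + 1))) h
    simp only [he] at h1
    exact Fin.succ_injective r (singleton_injective h1)
  rw [← sum_subset (subset_univ (univ.image fun i : Fin r => ({0, i.succ} : Finset (Fin (r + 1)))))]
  · rw [sum_image fun i _ j _ h => hinj h]
    refine sum_congr rfl fun i _ => ?_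
    rw [if_pos (mem_insert_self _ _), he, coeff_C_mul_X_pow, if_pos (card_singleton _).symm,
      prod_singleton, mul_comm]
  · intro I _ hI
    by_cases h : (0 : Fin (r + 1)) ∈ I
    · rw [if_pos h, coeff_C_mul_X_pow, if_neg]
      intro h0
      obtain ⟨a, ha⟩ := card_eq_one.mp h0.symm
      apply hI
      have ha1 : a ∈ I.erase 0 := by rw [ha]; exact mem_singleton_self a
      obtain ⟨b, hb⟩ := Fin.exists_succ_eq_of_ne_zero (ne_of_mem_erase ha1)
      refine mem_image.mpr ⟨b, mem_univ _, ?_⟩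
      rw [← insert_erase h, ha, hb]
    · rw [if_neg h]; simp

/-- **Row SPK.** -/
theorem spk (hA : ∀ x y : ℂ[X], (∀ s : ℂ, ‖s‖ < 1 → ‖y.eval s‖ ≤ ‖x.eval s‖) →
    ‖x.coeff 0 * y.coeff 1 - y.coeff 0 * x.coeff 1‖ ≤ ‖x.coeff 0‖ ^ 2 - ‖y.coeff 0‖ ^ 2) :
    SPKS := by
  intro r p hp
  -- phases
  have hph : ∀ e : ℂ, ∃ c : ℂ, ‖c‖ = 1 ∧ c * e = (‖e‖ : ℂ) := by
    intro e
    by_cases he : e = 0
    · exact ⟨1, by simp, by simp [he]⟩
    · have he' : (‖e‖ : ℂ) ≠ 0 := by exact_mod_cast (norm_ne_zero_iff.mpr he)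
      refine ⟨(starRingEnd ℂ) e / (‖e‖ : ℂ), ?_, ?_⟩
      · rw [norm_div, RCLike.norm_conj, Complex.norm_real, norm_norm,
          div_self (norm_ne_zero_iff.mpr he)]
      · rw [div_mul_eq_mul_div, div_eq_iff he', mul_comm ((starRingEnd ℂ) e), Complex.mul_conj,
          Complex.normSq_eq_norm_sq]
        push_cast
        ring
  choose c hc1 hc2 using hph
  set e : Fin r → ℂ := fun i => p ∅ * p {0, i.succ} - p {0} * p {i.succ} with he
  -- the phases as a function on all ports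
  set g : Fin (r + 1) → ℂ := Fin.cons 1 fun i => c (e i) with hg
  have hg1 : ∀ i, ‖g i‖ = 1 := by
    intro i
    refine Fin.cases ?_ (fun j => ?_) i
    · rw [hg, Fin.cons_zero, norm_one]
    · rw [hg, Fin.cons_succ]; exact hc1 _
  have hle : ∀ s : ℂ, ‖s‖ < 1 → ‖(yp p g).eval s‖ ≤ ‖(xp p g).eval s‖ := by
    intro s hs
    by_contra hlt
    rw [not_le] at hlt
    have hy : (yp p g).eval s ≠ 0 := by
      intro h0
      rw [h0, norm_zero] at hlt
      exact absurd hlt (not_lt.mpr (norm_nonneg _))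
    set y0 : ℂ := -((xp p g).eval s) / (yp p g).eval s with hy0
    have h1 : ‖y0‖ < 1 := by
      rw [hy0, norm_div, norm_neg, div_lt_one (norm_pos_iff.mpr hy)]
      exact hlt
    refine hp (fun i => if i = 0 then y0 else g i * s) (fun i => ?_) ?_
    · split_ifs
      · exact h1
      · rw [norm_mul, hg1, one_mul]; exact hs
    · rw [← eval_xy, hy0, div_mul_cancel₀ _ hy, add_neg_cancel]
  have h2 := hA _ _ hle
  rw [xp0, yp0, xp1, yp1] at h2
  have h3 : p ∅ * ∑ i : Fin r, g i.succ * p {0, i.succ} - p {0} * ∑ i : Fin r, g i.succ * p {i.succ}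
      = ((∑ i : Fin r, ‖e i‖ : ℝ) : ℂ) := by
    rw [mul_sum, mul_sum, ← sum_sub_distrib]
    push_cast
    refine sum_congr rfl fun i _ => ?_
    rw [← hc2 (e i), hg, Fin.cons_succ, he]
    ring
  rw [h3, Complex.norm_real, Real.norm_of_nonneg (sum_nonneg fun i _ => norm_nonneg _)] at h2
  exact h2

end

end Pool.Agent.B5.H50
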